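import Mathlib
import Pool.Agent.Lib.MP_448b0d_an.Curve
import Pool.Agent.Lib.MP_448b0d_an.Bloch

open Metric Set Filter Topology

namespace Pool.Agent.Lib.MP_448b0d_an.H37

/-- `F` is continuous on `A` and holomorphic along every holomorphic disc inside `A`. -/
def DiscHol {E : Type*} [NormedAddCommGroup E] [NormedSpace ℂ E] (A : Set E) (F : E → ℂ) : Prop :=
  ContinuousOn F A ∧ ∀ (c : ℂ → E) (t₀ : ℂ), (∀ᶠ t in 𝓝 t₀, DifferentiableAt ℂ c t) →
    (∀ᶠ t in 𝓝 t₀, c t ∈ A) → DifferentiableAt ℂ (fun t => F (c t)) t₀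

section basic

variable {E E' : Type*} [NormedAddCommGroup E] [NormedSpace ℂ E] [NormedAddCommGroup E']
  [NormedSpace ℂ E']

lemma DiscHol.comp {A : Set E} {A' : Set E'} {F : E → ℂ} (hF : DiscHol A F) {L : E' → E}
    (hL : Differentiable ℂ L) (hm : MapsTo L A' A) : DiscHol A' (fun x => F (L x)) := by
  refine ⟨hF.1.comp hL.continuous.continuousOn hm, ?_⟩
  intro c t₀ hc hcA
  exact hF.2 (fun t => L (c t)) t₀ (hc.mono fun t ht => (hL _).comp t ht)
    (hcA.mono fun t ht => hm ht)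

lemma DiscHol.sub {A : Set E} {F G : E → ℂ} (hF : DiscHol A F) (hG : DiscHol A G) :
    DiscHol A (fun x => F x - G x) :=
  ⟨hF.1.sub hG.1, fun c t₀ hc hcA => (hF.2 c t₀ hc hcA).sub (hG.2 c t₀ hc hcA)⟩

lemma DiscHol.sub_const {A : Set E} {F : E → ℂ} (hF : DiscHol A F) (w : ℂ) :
    DiscHol A (fun x => F x - w) :=
  ⟨hF.1.sub continuousOn_const, fun c t₀ hc hcA => (hF.2 c t₀ hc hcA).sub_const w⟩

lemma DiscHol.mono {A B : Set E} {F : E → ℂ} (hF : DiscHol A F) (h : B ⊆ A) : DiscHol B F :=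
  ⟨hF.1.mono h, fun c t₀ hc hcA => hF.2 c t₀ hc (hcA.mono fun _ ht => h ht)⟩

end basic

/-- Maximum principle on the curve `f x + g y = 0`. -/
lemma curve_max_principle {f g : ℂ → ℂ} (hf : Differentiable ℂ f) (hg : Differentiable ℂ g)
    {S U : Set (ℂ × ℂ)} (hS : IsCompact S) (hU : IsOpen U) (hUS : U ⊆ S)
    {G : ℂ × ℂ → ℂ} (hGc : ContinuousOn G (S ∩ {q : ℂ × ℂ | f q.1 + g q.2 = 0}))
    (hGd : ∀ (ψ : ℂ → ℂ) (y0 : ℂ), (∀ᶠ y in 𝓝 y0, DifferentiableAt ℂ ψ y) →
      (∀ᶠ y in 𝓝 y0, f (ψ y) + g y = 0) → (ψ y0, y0) ∈ U → deriv f (ψ y0) ≠ 0 →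
      DifferentiableAt ℂ (fun y => G (ψ y, y)) y0)
    (hG0 : ∀ p ∈ U, deriv f p.1 = 0 → G p = 0) {m : ℝ} (hm : 0 ≤ m)
    (hbd : ∀ p ∈ S, p ∉ U → f p.1 + g p.2 = 0 → ‖G p‖ ≤ m) :
    ∀ p ∈ S, f p.1 + g p.2 = 0 → ‖G p‖ ≤ m := by
  intro p hpS hpX
  by_contra hcon
  push Not at hcon
  have hXcl : IsClosed {q : ℂ × ℂ | f q.1 + g q.2 = 0} := by
    apply isClosed_eq
    · exact (hf.continuous.comp continuous_fst).add (hg.continuous.comp continuous_snd)
    · exact continuous_const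
  set K : Set (ℂ × ℂ) := S ∩ {q : ℂ × ℂ | f q.1 + g q.2 = 0} with hK
  have hKc : IsCompact K := hS.inter_right hXcl
  have hKG : ContinuousOn (fun q => ‖G q‖) K := hGc.norm
  obtain ⟨q, hqK, hqmax⟩ := hKc.exists_isMaxOn ⟨p, hpS, hpX⟩ hKG
  set M := ‖G q‖ with hM
  have hMm : m < M := lt_of_lt_of_le hcon (hqmax ⟨hpS, hpX⟩)
  set T : Set (ℂ × ℂ) := K ∩ (fun q => ‖G q‖) ⁻¹' {M} with hT
  have hTcl : IsClosed T := hKG.preimage_isClosed_of_isClosed hKc.isClosed isClosed_singleton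
  have hTc : IsCompact T := hKc.of_isClosed_subset hTcl inter_subset_left
  have hre : ContinuousOn (fun q : ℂ × ℂ => q.2.re) T :=
    (Complex.continuous_re.comp continuous_snd).continuousOn
  obtain ⟨q1, hq1T, hq1max⟩ := hTc.exists_isMaxOn ⟨q, hqK, by simp [hM]⟩ hre
  have hq1S : q1 ∈ S := hq1T.1.1
  have hq1X : f q1.1 + g q1.2 = 0 := hq1T.1.2
  have hq1M : ‖G q1‖ = M := hq1T.2
  have hq1U : q1 ∈ U := by
    by_contra hnU
    have := hbd q1 hq1S hnU hq1X
    linarith
  have hder : deriv f q1.1 ≠ 0 := by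
    intro h
    have := hG0 q1 hq1U h
    rw [this, norm_zero] at hq1M
    linarith
  obtain ⟨ψ, hψd, hψ0, hψX⟩ := exists_graph hf hg hq1X hder
  have hγd : ∀ᶠ y in 𝓝 q1.2, DifferentiableAt ℂ (fun y => (ψ y, y)) y := by
    filter_upwards [hψd] with y hy
    exact hy.prodMk differentiableAt_id
  have hγ0 : (ψ q1.2, q1.2) = q1 := by rw [hψ0]
  have hγU : ∀ᶠ y in 𝓝 q1.2, (ψ y, y) ∈ U := by
    have hc : ContinuousAt (fun y => (ψ y, y)) q1.2 := hγd.self_of_nhds.continuousAt
    apply hc.eventually_mem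
    apply hU.mem_nhds
    rw [hγ0]; exact hq1U
  have hdc : Continuous (deriv f) := (hf.contDiff (n := 1)).continuous_deriv_one
  have hγder : ∀ᶠ y in 𝓝 q1.2, deriv f (ψ y) ≠ 0 := by
    have hc : ContinuousAt (fun y => deriv f (ψ y)) q1.2 :=
      ContinuousAt.comp (f := ψ) (g := deriv f) hdc.continuousAt hψd.self_of_nhds.continuousAt
    apply hc.eventually_ne
    rw [hψ0]; exact hder
  have hGγd : ∀ᶠ y in 𝓝 q1.2, DifferentiableAt ℂ (fun y => G (ψ y, y)) y := by
    filter_upwards [hψd.eventually_nhds, hψX.eventually_nhds, hγU, hγder] with y hy1 hy2 hy3 hy4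
    exact hGd ψ y hy1 hy2 hy3 hy4
  have hloc : IsLocalMax (norm ∘ fun y => G (ψ y, y)) q1.2 := by
    filter_upwards [hγU, hψX] with y hyU hyX
    simp only [Function.comp]
    rw [hγ0, hq1M]
    exact hqmax ⟨hUS hyU, hyX⟩
  have hconst := Complex.eventually_eq_of_isLocalMax_norm hGγd hloc
  have hev : ∀ᶠ y in 𝓝 q1.2, y.re ≤ q1.2.re := by
    filter_upwards [hconst, hγU, hψX] with y hy hyU hyX
    have : (ψ y, y) ∈ T := by
      refine ⟨⟨hUS hyU, hyX⟩, ?_⟩
      simp only [mem_preimage, mem_singleton_iff]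
      rw [hy, hγ0, hq1M]
    exact hq1max this
  have htend : Tendsto (fun t : ℝ => q1.2 + (t : ℂ)) (𝓝[>] 0) (𝓝 q1.2) := by
    have : Tendsto (fun t : ℝ => q1.2 + (t : ℂ)) (𝓝 0) (𝓝 (q1.2 + ((0 : ℝ) : ℂ))) := by
      apply Continuous.tendsto
      fun_prop
    simp only [Complex.ofReal_zero, add_zero] at this
    exact this.mono_left nhdsWithin_le_nhds
  have hev2 := htend.eventually hev
  have hpos : ∀ᶠ t : ℝ in 𝓝[>] 0, 0 < t := eventually_mem_nhdsWithin
  obtain ⟨t, ht1, ht2⟩ := (hev2.and hpos).exists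
  simp at ht1
  linarith

/-- The part of the curve `f x + g y = 0` on which `f' ≠ 0`. -/
def curveReg (f g : ℂ → ℂ) : Set (ℂ × ℂ) := {q | f q.1 + g q.2 = 0 ∧ deriv f q.1 ≠ 0}

/-- Phragmén–Lindelöf principle on the curve `f x + g y = 0`, at points with `f' ≠ 0`. -/
lemma curve_PL {f g : ℂ → ℂ} (hf : Differentiable ℂ f) (hg : Differentiable ℂ g)
    (hgc : ∃ a b, g a ≠ g b)
    {D : ℂ × ℂ → ℂ} (hD : DiscHol (curveReg f g) D) {C ε r : ℝ} {a : ℂ} (hr : 0 < r) (hε : 0 < ε)
    (hC : ∀ p ∈ curveReg f g, ‖D p‖ ≤ C)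
    (hsmall : ∀ p ∈ curveReg f g, ‖p.1 - a‖ ≤ r → ‖D p‖ ≤ ε)
    (p : ℂ × ℂ) (hp : p ∈ curveReg f g) : ‖D p‖ ≤ ε := by
  -- we may assume that `C` is large
  wlog hCε : 2 * ε ≤ C generalizing C
  · exact this (C := max C (2 * ε)) (fun q hq => (hC q hq).trans (le_max_left _ _))
      (le_max_right _ _)
  have hC0 : 0 < C := by linarith
  rcases le_or_gt ‖p.1 - a‖ r with hle | hgt
  · exact hsmall p hp hle
  obtain ⟨hpX, hdp⟩ := hp
  have hdc : Continuous (deriv f) := (hf.contDiff (n := 1)).continuous_deriv_one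
  set A : ℝ := C / ε with hA
  have hA2 : 2 ≤ A := by rw [hA, le_div_iff₀ hε]; linarith
  have hA1 : 1 < A := by linarith
  have hA0 : 0 < A := by linarith
  have hCA : C = ε * A := by rw [hA]; field_simp
  have hpa : 0 < ‖p.1 - a‖ := lt_trans hr hgt
  -- Main estimate for a given `N`
  have key : ∀ N : ℕ, ‖p.1 - a‖ < r * A ^ N → (‖D p‖ / ε) ^ N ≤ ‖p.1 - a‖ / r := by
    intro N hN
    set K : ℝ := r * A ^ N with hK
    have hrK : r < K := lt_trans hgt hN
    have hK0 : 0 < K := lt_trans hr hrK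
    obtain ⟨M, hM⟩ := (isCompact_closedBall a K).exists_bound_of_continuousOn
      (f := f) hf.continuous.continuousOn
    obtain ⟨M', hM'⟩ := (isCompact_closedBall a K).exists_bound_of_continuousOn
      (f := deriv f) hdc.continuousOn
    have hM'0 : 0 < M' := by
      have h1 := hM' p.1 (by rw [mem_closedBall, dist_eq_norm]; exact hN.le)
      exact lt_of_lt_of_le (norm_pos_iff.mpr hdp) h1
    obtain ⟨b, hb⟩ := exists_large hg hgc M
    have hbev : ∀ᶠ y in 𝓝 b, M < ‖g y‖ :=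
      (hg.continuous.norm).continuousAt.eventually_const_lt hb
    obtain ⟨r', hr'0, hr'⟩ := Metric.eventually_nhds_iff_ball.mp hbev
    have hfar : ∀ q : ℂ × ℂ, f q.1 + g q.2 = 0 → ‖q.1 - a‖ ≤ K → r' ≤ ‖q.2 - b‖ := by
      intro q hq hqa
      by_contra hlt
      push Not at hlt
      have h1 := hr' q.2 (by rw [mem_ball, dist_eq_norm]; exact hlt)
      have h2 := hM q.1 (by rw [mem_closedBall, dist_eq_norm]; exact hqa)
      have h3 : g q.2 = - f q.1 := by linear_combination hq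
      rw [h3, norm_neg] at h1
      linarith
    have hpb : r' ≤ ‖p.2 - b‖ := hfar p hpX hN.le
    have hpb0 : 0 < ‖p.2 - b‖ := lt_of_lt_of_le hr'0 hpb
    -- bound of powers
    have hpow : ∀ k : ℕ, ((‖D p‖ / ε) ^ N * (r / ‖p.1 - a‖)) ^ k ≤
        M' * ‖p.2 - b‖ / (r' * ‖deriv f p.1‖) := by
      intro k
      set n := N * k with hn
      set L : ℝ := r' * A ^ n + ‖p.2 - b‖ with hL
      have hAn : 0 < A ^ n := pow_pos hA0 n
      have hLp : ‖p.2 - b‖ < L := by
        have : 0 < r' * A ^ n := mul_pos hr'0 hAn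
        linarith
      have hLA : r' * A ^ n ≤ L := by linarith
      have hL0 : 0 < L := lt_trans hpb0 hLp
      set S : Set (ℂ × ℂ) := {q | (r ≤ ‖q.1 - a‖ ∧ ‖q.1 - a‖ ≤ K) ∧
        (r' / 2 ≤ ‖q.2 - b‖ ∧ ‖q.2 - b‖ ≤ L)} with hSdef
      set U : Set (ℂ × ℂ) := {q | (r < ‖q.1 - a‖ ∧ ‖q.1 - a‖ < K) ∧
        (r' / 2 < ‖q.2 - b‖ ∧ ‖q.2 - b‖ < L)} with hUdef
      have hc1 : Continuous fun q : ℂ × ℂ => ‖q.1 - a‖ := by fun_prop
      have hc2 : Continuous fun q : ℂ × ℂ => ‖q.2 - b‖ := by fun_prop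
      have hScl : IsClosed S :=
        ((isClosed_le continuous_const hc1).inter (isClosed_le hc1 continuous_const)).inter
          ((isClosed_le continuous_const hc2).inter (isClosed_le hc2 continuous_const))
      have hUo : IsOpen U :=
        ((isOpen_lt continuous_const hc1).inter (isOpen_lt hc1 continuous_const)).inter
          ((isOpen_lt continuous_const hc2).inter (isOpen_lt hc2 continuous_const))
      have hSc : IsCompact S := by
        apply ((isCompact_closedBall a K).prod (isCompact_closedBall b L)).of_isClosed_subset hScl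
        intro q hq
        refine ⟨?_, ?_⟩
        · rw [mem_closedBall, dist_eq_norm]; exact hq.1.2
        · rw [mem_closedBall, dist_eq_norm]; exact hq.2.2
      have hUS : U ⊆ S := fun q hq => ⟨⟨hq.1.1.le, hq.1.2.le⟩, ⟨hq.2.1.le, hq.2.2.le⟩⟩
      have hne1 : ∀ q ∈ S, q.1 - a ≠ 0 := by
        intro q hq h0
        have := hq.1.1
        rw [h0, norm_zero] at this
        linarith
      have hne2 : ∀ q ∈ S, q.2 - b ≠ 0 := by
        intro q hq h0
        have := hq.2.1
        rw [h0, norm_zero] at this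
        linarith
      set H : ℂ × ℂ → ℂ := fun q => ((q.1 - a) ^ k * (q.2 - b))⁻¹ with hH
      set G : ℂ × ℂ → ℂ := fun q => D q ^ n * deriv f q.1 * H q with hG
      have hdf : Differentiable ℂ (deriv f) := hf.deriv
      have hHd : ∀ q ∈ S, DifferentiableAt ℂ H q := by
        intro q hq
        apply DifferentiableAt.fun_inv
        · fun_prop
        · exact mul_ne_zero (pow_ne_zero _ (hne1 q hq)) (hne2 q hq)
      have hGnorm : ∀ q, ‖G q‖ = ‖D q‖ ^ n * ‖deriv f q.1‖ / (‖q.1 - a‖ ^ k * ‖q.2 - b‖) := by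
        intro q
        simp [hG, hH, div_eq_mul_inv]
      have hm0 : 0 ≤ ε ^ n * M' / (r ^ k * r') := by positivity
      -- continuity of `G`
      have hGc : ContinuousOn G (S ∩ {q : ℂ × ℂ | f q.1 + g q.2 = 0}) := by
        intro q hq
        by_cases hdq : deriv f q.1 = 0
        · have hGq : G q = 0 := by simp [hG, hdq]
          have h1 : ContinuousAt (fun q' : ℂ × ℂ => C ^ n * ‖deriv f q'.1‖ * ‖H q'‖) q := by
            refine ContinuousAt.mul (ContinuousAt.mul continuousAt_const ?_) ?_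
            · exact (hdc.comp continuous_fst).norm.continuousAt
            · exact (hHd q hq.1).continuousAt.norm
          have h2 : Tendsto (fun q' : ℂ × ℂ => C ^ n * ‖deriv f q'.1‖ * ‖H q'‖)
              (𝓝[S ∩ {q : ℂ × ℂ | f q.1 + g q.2 = 0}] q) (𝓝 0) := by
            have h3 := h1.tendsto
            simp only [hdq, norm_zero, mul_zero, zero_mul] at h3
            exact h3.mono_left nhdsWithin_le_nhds
          unfold ContinuousWithinAt
          rw [hGq]
          refine squeeze_zero_norm' ?_ h2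
          filter_upwards [self_mem_nhdsWithin] with q' hq'
          by_cases hdq' : deriv f q'.1 = 0
          · simp [hG, hdq']
          · have h4 := hC q' ⟨hq'.2, hdq'⟩
            simp only [hG, norm_mul, norm_pow]
            gcongr
        · have h1 : ContinuousWithinAt D (curveReg f g) q := hD.1 q ⟨hq.2, hdq⟩
          have h2 : ContinuousWithinAt D (S ∩ {q : ℂ × ℂ | f q.1 + g q.2 = 0}) q := by
            apply h1.mono_of_mem_nhdsWithin
            have h3 : {q' : ℂ × ℂ | deriv f q'.1 ≠ 0} ∈ 𝓝 q := by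
              apply (isOpen_ne_fun (hdc.comp continuous_fst) continuous_const).mem_nhds
              exact hdq
            filter_upwards [mem_nhdsWithin_of_mem_nhds h3, self_mem_nhdsWithin] with q' h4 h5
            exact ⟨h5.2, h4⟩
          refine ContinuousWithinAt.mul (ContinuousWithinAt.mul (h2.pow n) ?_) ?_
          · exact (hdc.comp continuous_fst).continuousWithinAt
          · exact (hHd q hq.1).continuousAt.continuousWithinAt
      have hGd : ∀ (ψ : ℂ → ℂ) (y0 : ℂ), (∀ᶠ y in 𝓝 y0, DifferentiableAt ℂ ψ y) →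
          (∀ᶠ y in 𝓝 y0, f (ψ y) + g y = 0) → (ψ y0, y0) ∈ U → deriv f (ψ y0) ≠ 0 →
          DifferentiableAt ℂ (fun y => G (ψ y, y)) y0 := by
        intro ψ y0 h1 h2 h3 h4
        have hψ0 : DifferentiableAt ℂ ψ y0 := h1.self_of_nhds
        have hc : ∀ᶠ y in 𝓝 y0, DifferentiableAt ℂ (fun y => ((ψ y, y) : ℂ × ℂ)) y := by
          filter_upwards [h1] with y hy
          exact hy.prodMk differentiableAt_id
        have hcr : ∀ᶠ y in 𝓝 y0, ((ψ y, y) : ℂ × ℂ) ∈ curveReg f g := by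
          have h5 : ContinuousAt (fun y => deriv f (ψ y)) y0 :=
            ContinuousAt.comp (f := ψ) (g := deriv f) hdc.continuousAt hψ0.continuousAt
          filter_upwards [h2, h5.eventually_ne h4] with y hy1 hy2
          exact ⟨hy1, hy2⟩
        have h6 := hD.2 (fun y => ((ψ y, y) : ℂ × ℂ)) y0 hc hcr
        have h7 : DifferentiableAt ℂ (fun y => deriv f (ψ y)) y0 :=
          DifferentiableAt.comp (f := ψ) (g := deriv f) y0 (hdf _) hψ0
        have h8 : DifferentiableAt ℂ (fun y => H (ψ y, y)) y0 :=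
          DifferentiableAt.comp (f := fun y => ((ψ y, y) : ℂ × ℂ)) (g := H) y0
            (hHd _ (hUS h3)) hc.self_of_nhds
        exact ((h6.pow n).mul h7).mul h8
      have hmax := curve_max_principle hf hg hSc hUo hUS
        (G := G) hGc hGd
        (fun q _ h0 => by simp [hG, h0]) hm0 ?_ p ⟨⟨hgt.le, hN.le⟩, ⟨by linarith, hLp.le⟩⟩ hpX
      · rw [hGnorm] at hmax
        have hd0 : 0 < ‖deriv f p.1‖ := norm_pos_iff.mpr hdp
        rw [div_le_div_iff₀ (by positivity) (by positivity)] at hmax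
        rw [le_div_iff₀ (by positivity), mul_pow, div_pow, div_pow, ← pow_mul, ← pow_mul, div_pow]
        rw [← hn]
        rw [show ‖D p‖ ^ n / ε ^ n * (r ^ k / ‖p.1 - a‖ ^ k) * (r' * ‖deriv f p.1‖) =
          (‖D p‖ ^ n * ‖deriv f p.1‖ * (r ^ k * r')) / (ε ^ n * ‖p.1 - a‖ ^ k) by
            field_simp]
        rw [div_le_iff₀ (by positivity)]
        calc _ ≤ _ := hmax
          _ = _ := by ring
      · intro q hqS hqU hqX
        by_cases hdq : deriv f q.1 = 0
        · have hGq : G q = 0 := by simp [hG, hdq]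
          rw [hGq, norm_zero]; exact hm0
        rw [hGnorm]
        have hq1 := hM' q.1 (by rw [mem_closedBall, dist_eq_norm]; exact hqS.1.2)
        have hq2 := hfar q hqX hqS.1.2
        have hq3 := hC q ⟨hqX, hdq⟩
        have hcases : ‖q.1 - a‖ = r ∨ ‖q.1 - a‖ = K ∨ ‖q.2 - b‖ = L := by
          by_contra hcon
          push Not at hcon
          apply hqU
          refine ⟨⟨lt_of_le_of_ne hqS.1.1 (Ne.symm hcon.1), lt_of_le_of_ne hqS.1.2 hcon.2.1⟩,
            ⟨by linarith, lt_of_le_of_ne hqS.2.2 hcon.2.2⟩⟩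
        rcases hcases with h | h | h
        · rw [h]
          have h4 := hsmall q ⟨hqX, hdq⟩ h.le
          gcongr
        · rw [h]
          have hKk : K ^ k = r ^ k * A ^ n := by rw [hK, mul_pow, ← pow_mul]
          calc ‖D q‖ ^ n * ‖deriv f q.1‖ / (K ^ k * ‖q.2 - b‖)
              ≤ C ^ n * M' / (K ^ k * r') := by gcongr
            _ = ε ^ n * M' / (r ^ k * r') := by
              rw [hKk, hCA, mul_pow]
              field_simp
        · rw [h]
          calc ‖D q‖ ^ n * ‖deriv f q.1‖ / (‖q.1 - a‖ ^ k * L)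
              ≤ C ^ n * M' / (r ^ k * (r' * A ^ n)) := by
                have := hqS.1.1
                gcongr
            _ = ε ^ n * M' / (r ^ k * r') := by
              rw [hCA, mul_pow]
              field_simp
    have h1 := le_one_of_pow_le hpow
    rw [mul_div_assoc', div_le_one hpa] at h1
    rw [le_div_iff₀ hr]
    exact h1
  -- conclude
  have hev : ∀ᶠ N : ℕ in atTop, ‖p.1 - a‖ < r * A ^ N := by
    have h1 := (tendsto_pow_atTop_atTop_of_one_lt hA1).const_mul_atTop hr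
    exact h1.eventually_gt_atTop _
  obtain ⟨N0, hN0⟩ := eventually_atTop.mp hev
  have h2 : ‖D p‖ / ε ≤ 1 := le_one_of_pow_le' (fun N hN => key N (hN0 N hN))
  rwa [div_le_one hε] at h2

end Pool.Agent.Lib.MP_448b0d_an.H37
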