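import Mathlib
import Pool.Agent.Lib.MP_448b0d_an.Main
import Pool.Agent.Lib.MP_448b0d_an.H37.Core

open Metric Set Filter Topology

namespace Pool.Agent.Lib.MP_448b0d_an.H37

/-- The smooth part of the surface `f₁ x + f₂ y + f₃ z = 0`. -/
def surfReg (f₁ f₂ f₃ : ℂ → ℂ) : Set (ℂ × ℂ × ℂ) :=
  {p | f₁ p.1 + f₂ p.2.1 + f₃ p.2.2 = 0 ∧
    (deriv f₁ p.1 ≠ 0 ∨ deriv f₂ p.2.1 ≠ 0 ∨ deriv f₃ p.2.2 ≠ 0)}

/-- A right inverse is unramified. -/
lemma deriv_ne_of_right_inverse {f h : ℂ → ℂ} (hf : Differentiable ℂ f) {w : ℂ}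
    (hh : DifferentiableAt ℂ h w) (hinv : ∀ᶠ t in 𝓝 w, f (h t) = t) : deriv f (h w) ≠ 0 := by
  intro h0
  have h1 : HasDerivAt (fun t => f (h t)) (deriv f (h w) * deriv h w) w :=
    (hf (h w)).hasDerivAt.comp w hh.hasDerivAt
  have h2 : HasDerivAt (fun t => f (h t)) 1 w :=
    (hasDerivAt_id w).congr_of_eventuallyEq (by filter_upwards [hinv] with t ht; simpa using ht)
  have h3 := h1.unique h2
  rw [h0, zero_mul] at h3
  exact zero_ne_one h3

/-- A bounded function on the smooth part of the surface does not depend on the choice of the third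
coordinate in a fibre. -/
lemma fibre_indep {f₁ f₂ f₃ : ℂ → ℂ} (h1 : Differentiable ℂ f₁) (h2 : Differentiable ℂ f₂)
    (h3 : Differentiable ℂ f₃) (h1c : ∃ a b, f₁ a ≠ f₁ b) (h2c : ∃ a b, f₂ a ≠ f₂ b)
    {F : ℂ × ℂ × ℂ → ℂ} (hF : DiscHol (surfReg f₁ f₂ f₃) F) {C : ℝ}
    (hC : ∀ p ∈ surfReg f₁ f₂ f₃, ‖F p‖ ≤ C)
    (x y z z' : ℂ) (hx : deriv f₁ x ≠ 0) (hz : f₁ x + f₂ y + f₃ z = 0)
    (hz' : f₁ x + f₂ y + f₃ z' = 0) :
    F (x, y, z) = F (x, y, z') := by
  have hC0 : 0 ≤ C := (norm_nonneg _).trans (hC (x, y, z) ⟨hz, Or.inl hx⟩)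
  have hzz : f₃ z' = f₃ z := by linear_combination hz' - hz
  set g : ℂ → ℂ := fun y => f₂ y + f₃ z with hg
  have hgd : Differentiable ℂ g := h2.add_const _
  have hgc : ∃ a b, g a ≠ g b := by
    obtain ⟨a, b, hab⟩ := h2c
    exact ⟨a, b, fun h => hab (add_right_cancel h)⟩
  have hreg : ∀ c : ℂ, f₃ c = f₃ z → MapsTo (fun p : ℂ × ℂ => ((p.1, p.2, c) : ℂ × ℂ × ℂ))
      (curveReg f₁ g) (surfReg f₁ f₂ f₃) := by
    intro c hc p hp
    refine ⟨?_, Or.inl hp.2⟩
    have := hp.1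
    simp only [hg] at this
    simp only [hc]
    linear_combination this
  have hvec : ∀ c : ℂ, Differentiable ℂ fun p : ℂ × ℂ => ((p.1, p.2, c) : ℂ × ℂ × ℂ) := by
    intro c
    fun_prop
  set D : ℂ × ℂ → ℂ := fun p => F (p.1, p.2, z) - F (p.1, p.2, z') with hD
  have hDd : DiscHol (curveReg f₁ g) D :=
    (hF.comp (hvec z) (hreg z rfl)).sub (hF.comp (hvec z') (hreg z' hzz))
  have hDC : ∀ p ∈ curveReg f₁ g, ‖D p‖ ≤ 2 * C := by
    intro p hp
    calc ‖D p‖ ≤ ‖F (p.1, p.2, z)‖ + ‖F (p.1, p.2, z')‖ := norm_sub_le _ _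
      _ ≤ C + C := add_le_add (hC _ (hreg z rfl hp)) (hC _ (hreg z' hzz hp))
      _ = 2 * C := by ring
  have hle : ∀ ε : ℝ, 0 < ε → ‖D (x, y)‖ ≤ ε := by
    intro ε hε
    -- the radius `R`
    set R : ℝ := dist z' z + 1 + 2 * C * dist z' z / ε with hR
    have hd0 : 0 ≤ dist z' z := dist_nonneg
    have hR0 : 0 < R := by positivity
    have hRz : dist z' z < R := by
      have : 0 ≤ 2 * C * dist z' z / ε := by positivity
      linarith
    have hRε : 2 * C / R * dist z' z ≤ ε := by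
      rw [div_mul_eq_mul_div, div_le_iff₀ hR0]
      have h5 : ε * (2 * C * dist z' z / ε) = 2 * C * dist z' z := by field_simp
      have h6 : 0 ≤ ε * (dist z' z + 1) := by positivity
      calc 2 * C * dist z' z = ε * (2 * C * dist z' z / ε) := h5.symm
        _ ≤ ε * (dist z' z + 1) + ε * (2 * C * dist z' z / ε) := by linarith
        _ = ε * R := by rw [hR]; ring
    obtain ⟨ρ, hρ⟩ := (isCompact_closedBall z R).exists_bound_of_continuousOn
      (f := fun s => f₃ z - f₃ s) (continuous_const.sub h3.continuous).continuousOn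
    have hρ0 : 0 ≤ ρ := (norm_nonneg _).trans (hρ z (mem_closedBall_self hR0.le))
    obtain ⟨a, h, hhd, hhf, hhinv⟩ := exists_large_univalent_disc h1 h1c (ρ + 1)
    have hhreg : ∀ w ∈ ball (f₁ a) (ρ + 1), deriv f₁ (h w) ≠ 0 := by
      intro w hw
      have h5 : ∀ᶠ t in 𝓝 w, t ∈ ball (f₁ a) (ρ + 1) := isOpen_ball.mem_nhds hw
      exact deriv_ne_of_right_inverse h1 ((hhd w hw).differentiableAt (isOpen_ball.mem_nhds hw))
        (h5.mono fun t ht => hhf t ht)
    have hev1 : ∀ᶠ x in 𝓝 a, f₁ x ∈ ball (f₁ a) 1 :=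
      (h1.continuous.continuousAt).eventually_mem (ball_mem_nhds _ one_pos)
    obtain ⟨r, hr0, hr⟩ := Metric.nhds_basis_closedBall.eventually_iff.mp (hev1.and hhinv)
    apply curve_PL h1 hgd hgc hDd (a := a) hr0 hε hDC _ (x, y)
    · refine ⟨?_, hx⟩
      simp only [hg]; linear_combination hz
    intro s hs hsr
    have hsmem : s.1 ∈ closedBall a r := by
      rw [mem_closedBall, dist_eq_norm]; exact hsr
    obtain ⟨hs1, hs2⟩ := hr hsmem
    have hsX : f₁ s.1 + f₂ s.2 + f₃ z = 0 := by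
      have := hs.1
      simp only [hg] at this; linear_combination this
    -- the holomorphic disc
    set τ : ℂ → ℂ := fun t => f₁ s.1 + (f₃ z - f₃ t) with hτ
    have hτd : Differentiable ℂ τ := (h3.const_sub (f₃ z)).const_add _
    have hτmem : ∀ t ∈ ball z R, τ t ∈ ball (f₁ a) (ρ + 1) := by
      intro t ht
      have h7 := hρ t (ball_subset_closedBall ht)
      rw [mem_ball, dist_eq_norm] at hs1 ⊢
      have h8 : τ t - f₁ a = (f₁ s.1 - f₁ a) + (f₃ z - f₃ t) := by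
        simp only [hτ]; ring
      rw [h8]
      calc ‖(f₁ s.1 - f₁ a) + (f₃ z - f₃ t)‖ ≤ ‖f₁ s.1 - f₁ a‖ + ‖f₃ z - f₃ t‖ := norm_add_le _ _
        _ < ρ + 1 := by linarith
    set c : ℂ → ℂ × ℂ × ℂ := fun t => (h (τ t), s.2, t) with hc
    have hcd : ∀ t ∈ ball z R, DifferentiableAt ℂ c t := by
      intro t ht
      have h5 : DifferentiableAt ℂ h (τ t) :=
        (hhd _ (hτmem t ht)).differentiableAt (isOpen_ball.mem_nhds (hτmem t ht))
      have h6 : DifferentiableAt ℂ (fun t => h (τ t)) t := h5.comp t (hτd t)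
      exact h6.prodMk ((differentiableAt_const _).prodMk differentiableAt_id)
    have hcX : ∀ t ∈ ball z R, c t ∈ surfReg f₁ f₂ f₃ := by
      intro t ht
      refine ⟨?_, Or.inl (hhreg _ (hτmem t ht))⟩
      simp only [hc]
      rw [hhf _ (hτmem t ht)]
      simp only [hτ]
      linear_combination hsX
    set ψ : ℂ → ℂ := fun t => F (c t) with hψ
    have hψd : DifferentiableOn ℂ ψ (ball z R) := by
      intro t ht
      have h5 : ∀ᶠ u in 𝓝 t, u ∈ ball z R := isOpen_ball.mem_nhds ht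
      exact (hF.2 c t (h5.mono fun u hu => hcd u hu)
        (h5.mono fun u hu => hcX u hu)).differentiableWithinAt
    have hψX : ∀ t ∈ ball z R, ‖ψ t‖ ≤ C := fun t ht => hC _ (hcX t ht)
    have hzR : z ∈ ball z R := mem_ball_self hR0
    have hmaps : MapsTo ψ (ball z R) (closedBall (ψ z) (2 * C)) := by
      intro t ht
      rw [mem_closedBall, dist_eq_norm]
      calc ‖ψ t - ψ z‖ ≤ ‖ψ t‖ + ‖ψ z‖ := norm_sub_le _ _
        _ ≤ C + C := add_le_add (hψX t ht) (hψX z hzR)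
        _ = 2 * C := by ring
    have hz'R : z' ∈ ball z R := hRz
    have hfin := Complex.dist_le_div_mul_dist_of_mapsTo_ball hψd hmaps hz'R
    have e1 : τ z = f₁ s.1 := by simp [hτ]
    have e2 : τ z' = f₁ s.1 := by simp [hτ, hzz]
    have e3 : ψ z = F (s.1, s.2, z) := by simp only [hψ, hc]; rw [e1, hs2]
    have e4 : ψ z' = F (s.1, s.2, z') := by simp only [hψ, hc]; rw [e2, hs2]
    rw [e3, e4, dist_comm, dist_eq_norm] at hfin
    exact hfin.trans hRε
  have h0 : ‖D (x, y)‖ ≤ 0 := le_of_forall_pos_le_add (fun ε hε => by simpa using hle ε hε)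
  exact sub_eq_zero.mp (norm_le_zero_iff.mp h0)

/-- A bounded function on the curve `f x + g z = 0` that does not depend on the choice of `z` in a
fibre is constant on the part of the curve with `f' ≠ 0`. -/
lemma const_on_curve {f g : ℂ → ℂ} (hf : Differentiable ℂ f) (hg : Differentiable ℂ g)
    (hgc : ∃ a b, g a ≠ g b)
    {Φ : ℂ × ℂ → ℂ} (hΦ : DiscHol (curveReg f g) Φ) {C : ℝ}
    (hC : ∀ p ∈ curveReg f g, ‖Φ p‖ ≤ C)
    (hfib : ∀ x z z' : ℂ, (x, z) ∈ curveReg f g → (x, z') ∈ curveReg f g → Φ (x, z) = Φ (x, z'))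
    (p q : ℂ × ℂ) (hp : p ∈ curveReg f g) (hq : q ∈ curveReg f g) : Φ p = Φ q := by
  set D : ℂ × ℂ → ℂ := fun s => Φ s - Φ q with hD
  have hDd : DiscHol (curveReg f g) D := hΦ.sub_const _
  have hDC : ∀ s ∈ curveReg f g, ‖D s‖ ≤ 2 * C := by
    intro s hs
    calc ‖D s‖ ≤ ‖Φ s‖ + ‖Φ q‖ := norm_sub_le _ _
      _ ≤ C + C := add_le_add (hC s hs) (hC q hq)
      _ = 2 * C := by ring
  have hle : ∀ ε : ℝ, 0 < ε → ‖D p‖ ≤ ε := by
    intro ε hε
    have hcont : ContinuousWithinAt Φ (curveReg f g) q := hΦ.1 q hq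
    obtain ⟨δ, hδ0, hδ⟩ := Metric.continuousWithinAt_iff.mp hcont ε hε
    have hopen : IsOpen (g '' ball q.2 δ) := isOpenMap_entire hg hgc _ isOpen_ball
    have hmem : - f q.1 ∈ g '' ball q.2 δ :=
      ⟨q.2, mem_ball_self hδ0, by linear_combination hq.1⟩
    have hev : ∀ᶠ x in 𝓝 q.1, - f x ∈ g '' ball q.2 δ :=
      (hf.continuous.neg.continuousAt).eventually_mem (hopen.mem_nhds hmem)
    have hev2 : ∀ᶠ x in 𝓝 q.1, x ∈ ball q.1 δ := ball_mem_nhds _ hδ0
    obtain ⟨r, hr0, hr⟩ := Metric.nhds_basis_closedBall.eventually_iff.mp (hev.and hev2)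
    apply curve_PL hf hg hgc hDd (a := q.1) hr0 hε hDC _ p hp
    intro s hs hsr
    have hsmem : s.1 ∈ closedBall q.1 r := by
      rw [mem_closedBall, dist_eq_norm]; exact hsr
    obtain ⟨⟨z, hz, hzs⟩, hsδ⟩ := hr hsmem
    have hzc : (s.1, z) ∈ curveReg f g := by
      refine ⟨?_, hs.2⟩
      simp only
      rw [hzs]; ring
    have h1 : Φ s = Φ (s.1, z) := hfib s.1 s.2 z hs hzc
    have h3 : dist (s.1, z) q < δ := by
      rw [Prod.dist_eq, max_lt_iff]
      exact ⟨hsδ, hz⟩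
    have h4 := hδ hzc h3
    rw [dist_eq_norm] at h4
    simp only [hD]
    rw [h1]
    exact h4.le
  have h0 : ‖D p‖ ≤ 0 := le_of_forall_pos_le_add (fun ε hε => by simpa using hle ε hε)
  exact sub_eq_zero.mp (norm_le_zero_iff.mp h0)

/-- The set of noncritical points is open and dense. -/
lemma isOpen_noncrit {f : ℂ → ℂ} (hf : Differentiable ℂ f) : IsOpen {x | deriv f x ≠ 0} := by
  have hdc : Continuous (deriv f) := (hf.contDiff (n := 1)).continuous_deriv_one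
  exact isOpen_ne_fun hdc continuous_const

lemma dense_noncrit {f : ℂ → ℂ} (hf : Differentiable ℂ f) (hfc : ∃ a b, f a ≠ f b) :
    Dense {x | deriv f x ≠ 0} := by
  intro x
  rw [mem_closure_iff_frequently]
  exact ((eventually_deriv_ne hf hfc x).frequently).filter_mono nhdsWithin_le_nhds

/-- The noncritical values form an open dense set. -/
lemma isOpen_dense_noncritValues {f : ℂ → ℂ} (hf : Differentiable ℂ f) (hfc : ∃ a b, f a ≠ f b) :
    IsOpen (f '' {x | deriv f x ≠ 0}) ∧ Dense (f '' {x | deriv f x ≠ 0}) := by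
  refine ⟨isOpenMap_entire hf hfc _ (isOpen_noncrit hf), ?_⟩
  exact DenseRange.dense_image (denseRange_entire hf hfc) hf.continuous (dense_noncrit hf hfc)

/-- Every complex number is a sum of two noncritical values. -/
lemma exists_add_eq {f g : ℂ → ℂ} (hf : Differentiable ℂ f) (hg : Differentiable ℂ g)
    (hfc : ∃ a b, f a ≠ f b) (hgc : ∃ a b, g a ≠ g b) (c : ℂ) :
    ∃ x y, deriv f x ≠ 0 ∧ deriv g y ≠ 0 ∧ f x + g y = c := by
  have h1 := isOpen_dense_noncritValues hf hfc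
  have h2 := isOpen_dense_noncritValues hg hgc
  have h3 : Dense ((fun w => c - w) ⁻¹' (g '' {x | deriv g x ≠ 0})) := by
    have : (fun w => c - w) ⁻¹' (g '' {x | deriv g x ≠ 0}) =
        (Homeomorph.subLeft c) ⁻¹' (g '' {x | deriv g x ≠ 0}) := by
      ext w; simp
    rw [this]
    exact h2.2.preimage (Homeomorph.subLeft c).isOpenMap
  obtain ⟨w, hw1, hw2⟩ := h3.inter_open_nonempty _ h1.1 h1.2.nonempty
  obtain ⟨x, hx, rfl⟩ := hw1
  obtain ⟨y, hy, hyw⟩ := hw2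
  exact ⟨x, y, hx, hy, by rw [hyw]; ring⟩

/-- The case of three variables: a bounded function on the smooth part is constant. -/
theorem const_three {f₁ f₂ f₃ : ℂ → ℂ} (h1 : Differentiable ℂ f₁) (h2 : Differentiable ℂ f₂)
    (h3 : Differentiable ℂ f₃) (h1c : ∃ a b, f₁ a ≠ f₁ b) (h2c : ∃ a b, f₂ a ≠ f₂ b)
    (h3c : ∃ a b, f₃ a ≠ f₃ b)
    {F : ℂ × ℂ × ℂ → ℂ} (hF : DiscHol (surfReg f₁ f₂ f₃) F) {C : ℝ}
    (hC : ∀ p ∈ surfReg f₁ f₂ f₃, ‖F p‖ ≤ C)
    (p q : ℂ × ℂ × ℂ) (hp : p ∈ surfReg f₁ f₂ f₃) (hq : q ∈ surfReg f₁ f₂ f₃) : F p = F q := by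
  have hfib := fibre_indep h1 h2 h3 h1c h2c hF hC
  -- slices `y = const`
  have hslice2 : ∀ y x z x' z' : ℂ, deriv f₁ x ≠ 0 → deriv f₁ x' ≠ 0 →
      f₁ x + f₂ y + f₃ z = 0 → f₁ x' + f₂ y + f₃ z' = 0 → F (x, y, z) = F (x', y, z') := by
    intro y x z x' z' hx hx' e1 e2
    have hvec : Differentiable ℂ fun p : ℂ × ℂ => ((p.1, y, p.2) : ℂ × ℂ × ℂ) := by fun_prop
    have hmaps : MapsTo (fun p : ℂ × ℂ => ((p.1, y, p.2) : ℂ × ℂ × ℂ))
        (curveReg f₁ (fun t => f₃ t + f₂ y)) (surfReg f₁ f₂ f₃) := by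
      intro p hp
      refine ⟨?_, Or.inl hp.2⟩
      have := hp.1
      simp only at this ⊢
      linear_combination this
    obtain ⟨a, b, hab⟩ := h3c
    exact const_on_curve (f := f₁) (g := fun t => f₃ t + f₂ y) h1 (h3.add_const _)
      ⟨a, b, fun h => hab (add_right_cancel h)⟩ (Φ := fun p => F (p.1, y, p.2))
      (hF.comp hvec hmaps) (C := C)
      (fun p hp => hC _ (hmaps hp))
      (fun x z z' e1 e2 => hfib x y z z' e1.2
        (by have := e1.1; simp only at this; linear_combination this)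
        (by have := e2.1; simp only at this; linear_combination this))
      (x, z) (x', z') ⟨by simp only; linear_combination e1, hx⟩
      ⟨by simp only; linear_combination e2, hx'⟩
  -- slices `x = const`
  have hslice1 : ∀ x y z y' z' : ℂ, deriv f₁ x ≠ 0 → deriv f₂ y ≠ 0 → deriv f₂ y' ≠ 0 →
      f₁ x + f₂ y + f₃ z = 0 → f₁ x + f₂ y' + f₃ z' = 0 →
      F (x, y, z) = F (x, y', z') := by
    intro x y z y' z' hx hy hy' e1 e2
    have hvec : Differentiable ℂ fun p : ℂ × ℂ => ((x, p.1, p.2) : ℂ × ℂ × ℂ) := by fun_prop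
    have hmaps : MapsTo (fun p : ℂ × ℂ => ((x, p.1, p.2) : ℂ × ℂ × ℂ))
        (curveReg f₂ (fun t => f₃ t + f₁ x)) (surfReg f₁ f₂ f₃) := by
      intro p hp
      refine ⟨?_, Or.inl hx⟩
      have := hp.1
      simp only at this ⊢
      linear_combination this
    obtain ⟨a, b, hab⟩ := h3c
    exact const_on_curve (f := f₂) (g := fun t => f₃ t + f₁ x) h2 (h3.add_const _)
      ⟨a, b, fun h => hab (add_right_cancel h)⟩ (Φ := fun p => F (x, p.1, p.2))
      (hF.comp hvec hmaps) (C := C)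
      (fun p hp => hC _ (hmaps hp))
      (fun y z z' e1 e2 => hfib x y z z' hx
        (by have := e1.1; simp only at this; linear_combination this)
        (by have := e2.1; simp only at this; linear_combination this))
      (y, z) (y', z') ⟨by simp only; linear_combination e1, hy⟩
      ⟨by simp only; linear_combination e2, hy'⟩
  -- points with `f₁' ≠ 0` and `f₂' ≠ 0`
  have hgood : ∀ x y z x' y' z' : ℂ, deriv f₁ x ≠ 0 → deriv f₂ y ≠ 0 → deriv f₁ x' ≠ 0 →
      deriv f₂ y' ≠ 0 → f₁ x + f₂ y + f₃ z = 0 → f₁ x' + f₂ y' + f₃ z' = 0 →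
      F (x, y, z) = F (x', y', z') := by
    intro x y z x' y' z' hx hy hx' hy' e e'
    have hopen3 : IsOpen (range f₃) := by
      rw [← image_univ]
      exact isOpenMap_entire h3 h3c _ isOpen_univ
    have hdense3 : Dense (range f₃) := denseRange_entire h3 h3c
    have hpre : ∀ c : ℂ, IsOpen {t | - f₁ t - c ∈ range f₃} ∧
        Dense {t | - f₁ t - c ∈ range f₃} := by
      intro c
      have hd : Differentiable ℂ fun t => - f₁ t - c := h1.neg.sub_const c
      have hnc : ∃ a b, (fun t => - f₁ t - c) a ≠ (fun t => - f₁ t - c) b := by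
        obtain ⟨a, b, hab⟩ := h1c
        exact ⟨a, b, fun h => hab (by simpa using h)⟩
      exact ⟨hopen3.preimage hd.continuous, hdense3.preimage (isOpenMap_entire hd hnc)⟩
    have hd1 := dense_noncrit h1 h1c
    have hd2 : Dense ({t | - f₁ t - f₂ y ∈ range f₃} ∩ {x | deriv f₁ x ≠ 0}) :=
      (hpre (f₂ y)).2.inter_of_isOpen_right hd1 (isOpen_noncrit h1)
    obtain ⟨t, ht2, ht1, ht3⟩ : ({t | - f₁ t - f₂ y' ∈ range f₃} ∩
        ({t | - f₁ t - f₂ y ∈ range f₃} ∩ {x | deriv f₁ x ≠ 0})).Nonempty :=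
      hd2.inter_open_nonempty _ (hpre (f₂ y')).1 (hpre (f₂ y')).2.nonempty
    obtain ⟨u, hu⟩ := ht1
    obtain ⟨u', hu'⟩ := ht2
    have e1 : f₁ t + f₂ y + f₃ u = 0 := by rw [hu]; ring
    have e2 : f₁ t + f₂ y' + f₃ u' = 0 := by rw [hu']; ring
    calc F (x, y, z) = F (t, y, u) := hslice2 y x z t u hx ht3 e e1
      _ = F (t, y', u') := hslice1 t y u y' u' ht3 hy hy' e1 e2
      _ = F (x', y', z') := hslice2 y' t u' x' z' ht3 hx' e2 e'
  -- a good base point
  obtain ⟨z0⟩ : Nonempty ℂ := ⟨0⟩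
  obtain ⟨x0, y0, hx0, hy0, e0⟩ := exists_add_eq h1 h2 h1c h2c (- f₃ z0)
  have e0' : f₁ x0 + f₂ y0 + f₃ z0 = 0 := by rw [e0]; ring
  -- by density every point has the value of the base point
  have hbase : ∀ s ∈ surfReg f₁ f₂ f₃, F s = F (x0, y0, z0) := by
    intro s hs
    have hcont : ContinuousWithinAt F (surfReg f₁ f₂ f₃) s := hF.1 s hs
    by_contra hne
    have hpos : 0 < dist (F s) (F (x0, y0, z0)) := dist_pos.mpr hne
    obtain ⟨δ, hδ0, hδ⟩ := Metric.continuousWithinAt_iff.mp hcont _ hpos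
    -- choose `x`, `y` near `s`
    have hopen : IsOpen (f₃ '' ball s.2.2 δ) := isOpenMap_entire h3 h3c _ isOpen_ball
    have hmem : - f₁ s.1 - f₂ s.2.1 ∈ f₃ '' ball s.2.2 δ :=
      ⟨s.2.2, mem_ball_self hδ0, by linear_combination hs.1⟩
    have hW : IsOpen {p : ℂ × ℂ | - f₁ p.1 - f₂ p.2 ∈ f₃ '' ball s.2.2 δ} := by
      apply hopen.preimage
      exact ((h1.continuous.comp continuous_fst).neg).sub (h2.continuous.comp continuous_snd)
    have hW2 : IsOpen ({p : ℂ × ℂ | - f₁ p.1 - f₂ p.2 ∈ f₃ '' ball s.2.2 δ} ∩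
        (ball s.1 δ ×ˢ ball s.2.1 δ)) := hW.inter (isOpen_ball.prod isOpen_ball)
    have hdense : Dense ({x | deriv f₁ x ≠ 0} ×ˢ {x | deriv f₂ x ≠ 0}) :=
      (dense_noncrit h1 h1c).prod (dense_noncrit h2 h2c)
    obtain ⟨⟨x, y⟩, ⟨hxy1, hxy2⟩, hxy3⟩ := hdense.inter_open_nonempty _ hW2
      ⟨(s.1, s.2.1), hmem, mem_ball_self hδ0, mem_ball_self hδ0⟩
    obtain ⟨z, hz, hzs⟩ := hxy1
    simp only at hzs
    have e1 : f₁ x + f₂ y + f₃ z = 0 := by rw [hzs]; ring
    have hmem2 : (x, y, z) ∈ surfReg f₁ f₂ f₃ := ⟨e1, Or.inl hxy3.1⟩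
    have hdist : dist ((x, y, z) : ℂ × ℂ × ℂ) s < δ := by
      rw [Prod.dist_eq, Prod.dist_eq, max_lt_iff, max_lt_iff]
      exact ⟨hxy2.1, hxy2.2, hz⟩
    have h4 := hδ hmem2 hdist
    rw [hgood x y z x0 y0 z0 hxy3.1 hxy3.2 hx0 hy0 e1 e0', dist_comm] at h4
    exact lt_irrefl _ h4
  rw [hbase p hp, hbase q hq]

end Pool.Agent.Lib.MP_448b0d_an.H37
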