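import Mathlib
import Pool.Agent.Lib.MP_448b0d_an.H37.Three

open Metric Set Filter Topology

namespace Pool.Agent.Lib.MP_448b0d_an.H37

variable {n : ℕ}

/-- Points of `∑ f i (z i) = 0` with some `f i'` nonzero. -/
def hyperReg (f : Fin n → ℂ → ℂ) : Set (Fin n → ℂ) :=
  {z | ∑ i, f i (z i) = 0 ∧ ∃ i, deriv (f i) (z i) ≠ 0}

/-- The affine embedding of the `(i, j, k)`-slice through `p`. -/
def slice (p : Fin n → ℂ) (i j k : Fin n) (s : ℂ × ℂ × ℂ) : Fin n → ℂ :=
  Function.update (Function.update (Function.update p i s.1) j s.2.1) k s.2.2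

lemma slice_i (p : Fin n → ℂ) {i j k : Fin n} (hij : i ≠ j) (hik : i ≠ k) (s : ℂ × ℂ × ℂ) :
    slice p i j k s i = s.1 := by
  simp [slice, Function.update_of_ne hik, Function.update_of_ne hij]

lemma slice_j (p : Fin n → ℂ) {i j k : Fin n} (hjk : j ≠ k) (s : ℂ × ℂ × ℂ) :
    slice p i j k s j = s.2.1 := by
  simp [slice, Function.update_of_ne hjk]

lemma slice_k (p : Fin n → ℂ) {i j k : Fin n} (s : ℂ × ℂ × ℂ) :
    slice p i j k s k = s.2.2 := by
  simp [slice]

lemma slice_l (p : Fin n → ℂ) {i j k l : Fin n} (hi : l ≠ i) (hj : l ≠ j) (hk : l ≠ k)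
    (s : ℂ × ℂ × ℂ) : slice p i j k s l = p l := by
  simp [slice, Function.update_of_ne hi, Function.update_of_ne hj, Function.update_of_ne hk]

lemma slice_differentiable (p : Fin n → ℂ) (i j k : Fin n) :
    Differentiable ℂ (slice p i j k) := by
  rw [differentiable_pi]
  intro l
  by_cases hk : l = k
  · subst hk
    have : (fun s : ℂ × ℂ × ℂ => slice p i j l s l) = fun s => s.2.2 := by
      funext s; simp [slice]
    rw [this]; fun_prop
  by_cases hj : l = j
  · subst hj
    have : (fun s : ℂ × ℂ × ℂ => slice p i l k s l) = fun s => s.2.1 := by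
      funext s; simp [slice, Function.update_of_ne hk]
    rw [this]; fun_prop
  by_cases hi : l = i
  · subst hi
    have : (fun s : ℂ × ℂ × ℂ => slice p l j k s l) = fun s => s.1 := by
      funext s; simp [slice, Function.update_of_ne hk, Function.update_of_ne hj]
    rw [this]; fun_prop
  have : (fun s : ℂ × ℂ × ℂ => slice p i j k s l) = fun _ => p l := by
    funext s; exact slice_l p hi hj hk s
  rw [this]; fun_prop

lemma sum_update (f : Fin n → ℂ → ℂ) (p : Fin n → ℂ) (i : Fin n) (x : ℂ) :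
    ∑ l, f l (Function.update p i x l) = (∑ l, f l (p l)) - f i (p i) + f i x := by
  have h1 : ∀ l, f l (Function.update p i x l) =
      Function.update (fun l => f l (p l)) i (f i x) l := fun l => Function.apply_update f p i x l
  simp only [h1]
  rw [Finset.sum_update_of_mem (Finset.mem_univ i)]
  have h2 := Finset.add_sum_erase (s := (Finset.univ : Finset (Fin n))) (f := fun l => f l (p l))
    (Finset.mem_univ i)
  rw [Finset.sdiff_singleton_eq_erase]
  rw [← h2]
  ring

lemma sum_slice (f : Fin n → ℂ → ℂ) (p : Fin n → ℂ) {i j k : Fin n} (hij : i ≠ j) (hik : i ≠ k)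
    (hjk : j ≠ k) (s : ℂ × ℂ × ℂ) :
    ∑ l, f l (slice p i j k s l) = (∑ l, f l (p l)) + (f i s.1 + f j s.2.1 + f k s.2.2)
      - (f i (p i) + f j (p j) + f k (p k)) := by
  unfold slice
  rw [sum_update, sum_update, sum_update]
  rw [Function.update_of_ne hjk.symm, Function.update_of_ne hik.symm,
    Function.update_of_ne hij.symm]
  ring

lemma slice_self (p q : Fin n → ℂ) {i j k : Fin n} (hij : i ≠ j) (hik : i ≠ k) (hjk : j ≠ k)
    (h : ∀ l, l ≠ i → l ≠ j → l ≠ k → p l = q l) : slice p i j k (q i, q j, q k) = q := by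
  funext l
  by_cases hk : l = k
  · subst hk; exact slice_k p _
  by_cases hj : l = j
  · subst hj; exact slice_j p hjk _
  by_cases hi : l = i
  · subst hi; exact slice_i p hij hik _
  rw [slice_l p hi hj hk]
  exact h l hi hj hk

section main

variable {f : Fin n → ℂ → ℂ} {F : (Fin n → ℂ) → ℂ} {C : ℝ}

/-- Two points of the hypersurface in a common slice have the same value. -/
lemma slice_eq (hf : ∀ i, Differentiable ℂ (f i)) (hfc : ∀ i, ∃ a b, f i a ≠ f i b)
    (hF : DiscHol (hyperReg f) F) (hC : ∀ p ∈ hyperReg f, ‖F p‖ ≤ C)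
    {p q : Fin n → ℂ} (hp : ∑ l, f l (p l) = 0) (hq : ∑ l, f l (q l) = 0) {i j k : Fin n}
    (hij : i ≠ j) (hik : i ≠ k) (hjk : j ≠ k)
    (h : ∀ l, l ≠ i → l ≠ j → l ≠ k → p l = q l)
    (hpr : deriv (f i) (p i) ≠ 0 ∨ deriv (f j) (p j) ≠ 0 ∨ deriv (f k) (p k) ≠ 0)
    (hqr : deriv (f i) (q i) ≠ 0 ∨ deriv (f j) (q j) ≠ 0 ∨ deriv (f k) (q k) ≠ 0) :
    F p = F q := by
  set c : ℂ := -(f i (p i) + f j (p j) + f k (p k)) with hc
  set g : ℂ → ℂ := fun t => f k t + c with hg
  have hgd : Differentiable ℂ g := (hf k).add_const _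
  have hgc : ∃ a b, g a ≠ g b := by
    obtain ⟨a, b, hab⟩ := hfc k
    exact ⟨a, b, fun h => hab (add_right_cancel h)⟩
  have hgder : ∀ t, deriv g t = deriv (f k) t := by
    intro t
    simp only [hg, deriv_add_const]
  have hmaps : MapsTo (slice p i j k) (surfReg (f i) (f j) g) (hyperReg f) := by
    intro s hs
    obtain ⟨hs1, hs2⟩ := hs
    refine ⟨?_, ?_⟩
    · rw [sum_slice f p hij hik hjk, hp]
      simp only [hg, hc] at hs1
      linear_combination hs1
    · rcases hs2 with h1 | h1 | h1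
      · exact ⟨i, by rw [slice_i p hij hik]; exact h1⟩
      · exact ⟨j, by rw [slice_j p hjk]; exact h1⟩
      · exact ⟨k, by rw [slice_k]; rw [hgder] at h1; exact h1⟩
  have hD : DiscHol (surfReg (f i) (f j) g) (fun s => F (slice p i j k s)) :=
    hF.comp (slice_differentiable p i j k) hmaps
  have hq' : f i (q i) + f j (q j) + g (q k) = 0 := by
    have h1 := sum_slice f p hij hik hjk (q i, q j, q k)
    rw [slice_self p q hij hik hjk h, hp, hq] at h1
    simp only [hg, hc]
    linear_combination -h1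
  have hp' : f i (p i) + f j (p j) + g (p k) = 0 := by
    simp only [hg, hc]; ring
  have := const_three (hf i) (hf j) hgd (hfc i) (hfc j) hgc hD (C := C)
    (fun s hs => hC _ (hmaps hs)) (p i, p j, p k) (q i, q j, q k)
    ⟨hp', by simpa only [hgder] using hpr⟩ ⟨hq', by simpa only [hgder] using hqr⟩
  rwa [slice_self p p hij hik hjk (fun _ _ _ _ => rfl), slice_self p q hij hik hjk h] at this

/-- Changing a coordinate to a prescribed noncritical value. -/
lemma exists_change (hf : ∀ i, Differentiable ℂ (f i)) (hfc : ∀ i, ∃ a b, f i a ≠ f i b)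
    (hF : DiscHol (hyperReg f) F) (hC : ∀ p ∈ hyperReg f, ‖F p‖ ≤ C)
    {p : Fin n → ℂ} (hp : ∑ l, f l (p l) = 0) {i j k : Fin n}
    (hij : i ≠ j) (hik : i ≠ k) (hjk : j ≠ k)
    (hpr : deriv (f i) (p i) ≠ 0 ∨ deriv (f j) (p j) ≠ 0 ∨ deriv (f k) (p k) ≠ 0)
    {x : ℂ} (hx : deriv (f i) x ≠ 0) :
    ∃ p' : Fin n → ℂ, ∑ l, f l (p' l) = 0 ∧ F p = F p' ∧ p' i = x ∧
      deriv (f j) (p' j) ≠ 0 ∧ deriv (f k) (p' k) ≠ 0 ∧
      ∀ l, l ≠ i → l ≠ j → l ≠ k → p' l = p l := by
  obtain ⟨y, z, hy, hz, hyz⟩ := exists_add_eq (hf j) (hf k) (hfc j) (hfc k)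
    ((f i (p i) + f j (p j) + f k (p k)) - f i x)
  set p' : Fin n → ℂ := slice p i j k (x, y, z) with hp'
  have e1 : p' i = x := slice_i p hij hik _
  have e2 : p' j = y := slice_j p hjk _
  have e3 : p' k = z := slice_k p _
  have e4 : ∀ l, l ≠ i → l ≠ j → l ≠ k → p' l = p l := fun l hi hj hk => slice_l p hi hj hk _
  have e5 : ∑ l, f l (p' l) = 0 := by
    rw [hp', sum_slice f p hij hik hjk, hp]
    simp only
    linear_combination hyz
  refine ⟨p', e5, ?_, e1, by rw [e2]; exact hy, by rw [e3]; exact hz, e4⟩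
  exact slice_eq hf hfc hF hC hp e5 hij hik hjk (fun l hi hj hk => (e4 l hi hj hk).symm) hpr
    (Or.inl (by rw [e1]; exact hx))

/-- Every smooth point can be moved to a point all of whose coordinates are noncritical. -/
lemma exists_noncrit (hn : 3 ≤ n) (hf : ∀ i, Differentiable ℂ (f i))
    (hfc : ∀ i, ∃ a b, f i a ≠ f i b)
    (hF : DiscHol (hyperReg f) F) (hC : ∀ p ∈ hyperReg f, ‖F p‖ ≤ C) (m : ℕ) :
    ∀ p ∈ hyperReg f, (Finset.univ.filter fun l => deriv (f l) (p l) = 0).card ≤ m →
      ∃ p' : Fin n → ℂ, ∑ l, f l (p' l) = 0 ∧ F p = F p' ∧ ∀ l, deriv (f l) (p' l) ≠ 0 := by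
  induction m with
  | zero =>
    intro p hp hcard
    have h0 : (Finset.univ.filter fun l => deriv (f l) (p l) = 0) = ∅ := by
      apply Finset.card_eq_zero.mp; omega
    refine ⟨p, hp.1, rfl, ?_⟩
    intro l hl
    have : l ∈ (Finset.univ.filter fun l => deriv (f l) (p l) = 0) := by simp [hl]
    rw [h0] at this
    exact absurd this (Finset.notMem_empty l)
  | succ m ih =>
    intro p hp hcard
    by_cases hall : ∀ l, deriv (f l) (p l) ≠ 0
    · exact ⟨p, hp.1, rfl, hall⟩
    push Not at hall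
    obtain ⟨j, hj⟩ := hall
    obtain ⟨i, hi⟩ := hp.2
    have hij : i ≠ j := by
      rintro rfl; exact hi hj
    obtain ⟨k, hk⟩ : ∃ k : Fin n, k ∉ ({i, j} : Finset (Fin n)) := by
      by_contra hcon
      push Not at hcon
      have h1 : (Finset.univ : Finset (Fin n)) ⊆ {i, j} := fun l _ => hcon l
      have h2 := Finset.card_le_card h1
      have h3 : ({i, j} : Finset (Fin n)).card ≤ 2 := Finset.card_le_two
      rw [Finset.card_univ, Fintype.card_fin] at h2
      omega
    simp only [Finset.mem_insert, Finset.mem_singleton, not_or] at hk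
    obtain ⟨x, hx⟩ : ∃ x, deriv (f i) x ≠ 0 := ⟨p i, hi⟩
    obtain ⟨p', h1, h2, h3, h4, h5, h6⟩ := exists_change hf hfc hF hC hp.1 hij (Ne.symm hk.1)
      (Ne.symm hk.2) (Or.inl hi) hx
    have hreg : p' ∈ hyperReg f := ⟨h1, i, by rw [h3]; exact hx⟩
    have hsub : (Finset.univ.filter fun l => deriv (f l) (p' l) = 0) ⊂
        (Finset.univ.filter fun l => deriv (f l) (p l) = 0) := by
      rw [Finset.ssubset_iff_of_subset]
      · exact ⟨j, by simp [hj], by simp [h4]⟩
      · intro l hl
        simp only [Finset.mem_filter, Finset.mem_univ, true_and] at hl ⊢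
        by_cases hli : l = i
        · subst hli; rw [h3] at hl; exact absurd hl hx
        by_cases hlj : l = j
        · subst hlj; exact absurd hl h4
        by_cases hlk : l = k
        · subst hlk; exact absurd hl h5
        rw [h6 l hli hlj hlk] at hl
        exact hl
    have hlt := Finset.card_lt_card hsub
    obtain ⟨p'', h7, h8, h9⟩ := ih p' hreg (by omega)
    exact ⟨p'', h7, h2.trans h8, h9⟩

/-- The case of `n ≥ 3` variables: bounded functions on the smooth part are constant. -/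
theorem const_all (hn : 3 ≤ n) (hf : ∀ i, Differentiable ℂ (f i))
    (hfc : ∀ i, ∃ a b, f i a ≠ f i b)
    (hF : DiscHol (hyperReg f) F) (hC : ∀ p ∈ hyperReg f, ‖F p‖ ≤ C) :
    ∀ p ∈ hyperReg f, ∀ q ∈ hyperReg f, F p = F q := by
  -- reduction to noncritical points
  suffices h : ∀ p q : Fin n → ℂ, ∑ l, f l (p l) = 0 → ∑ l, f l (q l) = 0 →
      (∀ l, deriv (f l) (p l) ≠ 0) → (∀ l, deriv (f l) (q l) ≠ 0) → F p = F q by
    intro p hp q hq
    obtain ⟨p', h1, h2, h3⟩ := exists_noncrit hn hf hfc hF hC _ p hp le_rfl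
    obtain ⟨q', h4, h5, h6⟩ := exists_noncrit hn hf hfc hF hC _ q hq le_rfl
    rw [h2, h5]
    exact h p' q' h1 h4 h3 h6
  intro p q hp hq hpr hqr
  have key : ∀ m : ℕ, m ≤ n - 2 → ∃ p' : Fin n → ℂ, ∑ l, f l (p' l) = 0 ∧ F p = F p' ∧
      (∀ l, deriv (f l) (p' l) ≠ 0) ∧ ∀ l : Fin n, l.val < m → p' l = q l := by
    intro m
    induction m with
    | zero =>
      intro _
      exact ⟨p, hp, rfl, hpr, fun l hl => absurd hl (Nat.not_lt_zero _)⟩
    | succ m ih =>
      intro hm
      obtain ⟨p', h1, h2, h3, h4⟩ := ih (by omega)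
      set i : Fin n := ⟨m, by omega⟩ with hi
      set j : Fin n := ⟨n - 2, by omega⟩ with hj
      set k : Fin n := ⟨n - 1, by omega⟩ with hk
      have hij : i ≠ j := by
        intro h; rw [Fin.ext_iff] at h; simp only [hi, hj] at h; omega
      have hik : i ≠ k := by
        intro h; rw [Fin.ext_iff] at h; simp only [hi, hk] at h; omega
      have hjk : j ≠ k := by
        intro h; rw [Fin.ext_iff] at h; simp only [hj, hk] at h; omega
      obtain ⟨p'', h5, h6, h7, h8, h9, h10⟩ := exists_change hf hfc hF hC h1 hij hik hjk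
        (Or.inl (h3 i)) (hqr i)
      refine ⟨p'', h5, h2.trans h6, ?_, ?_⟩
      · intro l
        by_cases hli : l = i
        · subst hli; rw [h7]; exact hqr _
        by_cases hlj : l = j
        · subst hlj; exact h8
        by_cases hlk : l = k
        · subst hlk; exact h9
        rw [h10 l hli hlj hlk]; exact h3 l
      · intro l hl
        by_cases hli : l = i
        · subst hli; exact h7
        have hlm : l.val ≠ m := by
          intro h; apply hli; rw [Fin.ext_iff]; exact h
        have hlj : l ≠ j := by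
          intro h; rw [Fin.ext_iff] at h; simp only [hj] at h; omega
        have hlk : l ≠ k := by
          intro h; rw [Fin.ext_iff] at h; simp only [hk] at h; omega
        rw [h10 l hli hlj hlk]
        exact h4 l (by omega)
  obtain ⟨p', h1, h2, h3, h4⟩ := key (n - 2) le_rfl
  rw [h2]
  set i : Fin n := ⟨0, by omega⟩ with hi
  set j : Fin n := ⟨n - 2, by omega⟩ with hj
  set k : Fin n := ⟨n - 1, by omega⟩ with hk
  have hij : i ≠ j := by
    intro h; rw [Fin.ext_iff] at h; simp only [hi, hj] at h; omega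
  have hik : i ≠ k := by
    intro h; rw [Fin.ext_iff] at h; simp only [hi, hk] at h; omega
  have hjk : j ≠ k := by
    intro h; rw [Fin.ext_iff] at h; simp only [hj, hk] at h; omega
  apply slice_eq hf hfc hF hC h1 hq hij hik hjk _ (Or.inl (h3 i)) (Or.inl (hqr i))
  intro l _ hlj hlk
  apply h4
  have hlj' : l.val ≠ n - 2 := by
    intro h; apply hlj; rw [Fin.ext_iff]; exact h
  have hlk' : l.val ≠ n - 1 := by
    intro h; apply hlk; rw [Fin.ext_iff]; exact h
  have := l.isLt
  omega

/-- The smooth points are dense in the hypersurface. -/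
lemma exists_reg_near (hn : 2 ≤ n) (hf : ∀ i, Differentiable ℂ (f i))
    (hfc : ∀ i, ∃ a b, f i a ≠ f i b) {p : Fin n → ℂ} (hp : ∑ l, f l (p l) = 0) {δ : ℝ}
    (hδ : 0 < δ) : ∃ q ∈ hyperReg f, dist q p < δ := by
  set i : Fin n := ⟨0, by omega⟩ with hi
  set j : Fin n := ⟨1, by omega⟩ with hj
  have hij : i ≠ j := by
    intro h; rw [Fin.ext_iff] at h; simp only [hi, hj] at h; omega
  have hopen : IsOpen (f j '' ball (p j) δ) := isOpenMap_entire (hf j) (hfc j) _ isOpen_ball
  set W : Set ℂ := {x | f j (p j) + f i (p i) - f i x ∈ f j '' ball (p j) δ} ∩ ball (p i) δ with hW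
  have hWo : IsOpen W := by
    apply IsOpen.inter _ isOpen_ball
    exact hopen.preimage (continuous_const.sub (hf i).continuous)
  obtain ⟨x, ⟨hx1, hx2⟩, hx3⟩ := (dense_noncrit (hf i) (hfc i)).inter_open_nonempty W hWo
    ⟨p i, ⟨p j, mem_ball_self hδ, by ring⟩, mem_ball_self hδ⟩
  obtain ⟨y, hy, hyx⟩ := hx1
  set q : Fin n → ℂ := Function.update (Function.update p i x) j y with hq
  have hqi : q i = x := by simp [hq, Function.update_of_ne hij]
  have hqj : q j = y := by simp [hq]
  have hql : ∀ l, l ≠ i → l ≠ j → q l = p l := by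
    intro l h1 h2
    simp [hq, Function.update_of_ne h1, Function.update_of_ne h2]
  refine ⟨q, ⟨?_, i, by rw [hqi]; exact hx3⟩, ?_⟩
  · rw [hq, sum_update, sum_update, Function.update_of_ne hij.symm, hp, hyx]
    ring
  · rw [dist_pi_lt_iff hδ]
    intro l
    by_cases hli : l = i
    · subst hli; rw [hqi]; exact hx2
    by_cases hlj : l = j
    · subst hlj; rw [hqj]; exact hy
    rw [hql l hli hlj, dist_self]; exact hδ

/-- A continuous function on the hypersurface that is constant on the smooth part is constant. -/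
lemma const_of_reg (hn : 2 ≤ n) (hf : ∀ i, Differentiable ℂ (f i))
    (hfc : ∀ i, ∃ a b, f i a ≠ f i b)
    (hFc : ContinuousOn F {z | ∑ l, f l (z l) = 0})
    (h : ∀ p ∈ hyperReg f, ∀ q ∈ hyperReg f, F p = F q) {p q : Fin n → ℂ}
    (hp : ∑ l, f l (p l) = 0) (hq : ∑ l, f l (q l) = 0) : F p = F q := by
  obtain ⟨b, hb, _⟩ := exists_reg_near hn hf hfc hp one_pos
  have hbase : ∀ s : Fin n → ℂ, ∑ l, f l (s l) = 0 → F s = F b := by
    intro s hs
    by_contra hne
    have hpos : 0 < dist (F s) (F b) := dist_pos.mpr hne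
    obtain ⟨δ, hδ0, hδ⟩ := Metric.continuousWithinAt_iff.mp (hFc s hs) _ hpos
    obtain ⟨t, ht, hts⟩ := exists_reg_near hn hf hfc hs hδ0
    have h4 := hδ (show t ∈ {z : Fin n → ℂ | ∑ l, f l (z l) = 0} from ht.1) hts
    rw [h t ht b hb, dist_comm] at h4
    exact lt_irrefl _ h4
  rw [hbase p hp, hbase q hq]

end main

end Pool.Agent.Lib.MP_448b0d_an.H37
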